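import Pool.Agent.W852.FG.Defs

/-!
# The frog model on Galton-Watson trees: auxiliary definitions and statements of the parts
-/

namespace FrogGW

open MeasureTheory ProbabilityTheory Filter
open scoped ENNReal NNReal Classical

/-! ## Auxiliary definitions -/

/-- The environment of the subtree of the child `i` of the root. -/
def sh (i : ℕ) (Z : Env) : Env := fun v => Z (v ++ [i])

/-- The environment of the subtree of the vertex `u`. -/
def sub (u : List ℕ) (Z : Env) : Env := fun v => Z (v ++ u)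

/-- The vertices at distance `n` from the root. -/
def lev (Z : Env) : ℕ → Finset (List ℕ)
  | 0 => {[]}
  | n + 1 => (lev Z n).biUnion fun u => (Finset.range (Z u)).image fun i => i :: u

/-- The vertices at distance less than `N` from the root. -/
def vert (Z : Env) (N : ℕ) : Finset (List ℕ) := (Finset.range N).biUnion (lev Z)

/-- The walk from `x` driven by `u` visits `y` within `m` steps, staying below level `N`. -/
def Hit (Z : Env) (N : ℕ) : ℕ → List ℕ → (ℕ → ℝ) → List ℕ → Prop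
  | 0, x, _, y => x.length < N ∧ x = y
  | m + 1, x, u, y => x.length < N ∧ (x = y ∨ Hit Z N m (step Z x (u 0)) (fun k => u (k + 1)) y)

/-- The weight `β y` if `y` is farther from the root than `x`. -/
def cross (β : List ℕ → ℝ≥0∞) (x y : List ℕ) : ℝ≥0∞ := if x.length < y.length then β y else 0

/-- Number of root visits plus the weights of the outward crossings, `m` steps, killed at
level `N`. -/
noncomputable def score (Z : Env) (N : ℕ) (β : List ℕ → ℝ≥0∞) :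
    ℕ → List ℕ → (ℕ → ℝ) → ℝ≥0∞
  | 0, _, _ => 0
  | m + 1, x, u => (if x = [] then 1 else 0) + cross β x (step Z x (u 0)) +
      (if (step Z x (u 0)).length < N
        then score Z N β m (step Z x (u 0)) (fun k => u (k + 1)) else 0)

/-- The activation process with walks cut after `N` steps and killed at level `N`. -/
inductive ActiveN (Z : Env) (N : ℕ) (ω : Conf) : List ℕ → Prop
  | root : ActiveN Z N ω []
  | wake {x y : List ℕ} (j : ℕ) : ActiveN Z N ω x → j < cnt x (ω x) →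
      Hit Z N N x ((ω x).2 j) y → ActiveN Z N ω y

/-- The number of active particles of the cut process that visit the root. -/
noncomputable def VN (Z : Env) (N : ℕ) (ω : Conf) : ℝ≥0∞ :=
  ∑ z ∈ vert Z N, if ActiveN Z N ω z then
    ∑ j ∈ Finset.range (cnt z (ω z)), (if Hit Z N N z ((ω z).2 j) [] then 1 else 0) else 0

/-- The recursion for the pair (additive coefficient, defect) of a tree cut at level `n`. -/
noncomputable def TA (lam γ : ℝ) : ℕ → Env → ℝ × ℝ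
  | 0, _ => (0, 1)
  | n + 1, Z =>
    if lam + ∑ i ∈ Finset.range (Z []), (TA lam γ n (sh i Z)).1
        ≤ γ * ∑ i ∈ Finset.range (Z []), (TA lam γ n (sh i Z)).2
    then (0, ((∑ i ∈ Finset.range (Z []), (TA lam γ n (sh i Z)).2) -
        (lam + ∑ i ∈ Finset.range (Z []), (TA lam γ n (sh i Z)).1)) /
          (1 + ∑ i ∈ Finset.range (Z []), (TA lam γ n (sh i Z)).2))
    else ((lam + ∑ i ∈ Finset.range (Z []), (TA lam γ n (sh i Z)).1) /
          (1 + ∑ i ∈ Finset.range (Z []), (TA lam γ n (sh i Z)).2),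
        (∑ i ∈ Finset.range (Z []), (TA lam γ n (sh i Z)).2) /
          (1 + ∑ i ∈ Finset.range (Z []), (TA lam γ n (sh i Z)).2))

/-- `𝒜` at the vertex `u` of the tree cut at level `N`. -/
noncomputable def AA (lam γ : ℝ) (N : ℕ) (Z : Env) (u : List ℕ) : ℝ :=
  lam + ∑ i ∈ Finset.range (Z u), (TA lam γ (N - 1 - u.length) (sub (i :: u) Z)).1

/-- `Θ` at the vertex `u` of the tree cut at level `N`. -/
noncomputable def TH (lam γ : ℝ) (N : ℕ) (Z : Env) (u : List ℕ) : ℝ :=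
  ∑ i ∈ Finset.range (Z u), (TA lam γ (N - 1 - u.length) (sub (i :: u) Z)).2

/-- The trigger vertices. -/
def trig (lam γ : ℝ) (N : ℕ) (Z : Env) (u : List ℕ) : Prop :=
  u ≠ [] ∧ u.length < N ∧ AA lam γ N Z u ≤ γ * TH lam γ N Z u

/-- The trigger of a vertex: its nearest ancestor (or itself) that is a trigger, or the root. -/
noncomputable def tv (lam γ : ℝ) (N : ℕ) (Z : Env) : List ℕ → List ℕ
  | [] => []
  | i :: u => if trig lam γ N Z (i :: u) then i :: u else tv lam γ N Z u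

/-- The potential. -/
noncomputable def pot (lam γ : ℝ) (N : ℕ) (Z : Env) : List ℕ → ℝ
  | [] => (Z [] : ℝ) / TH lam γ N Z []
  | i :: u => pot lam γ N Z u / (1 + TH lam γ N Z (i :: u))

/-- The weight of a trigger. -/
noncomputable def bet (lam γ : ℝ) (N : ℕ) (Z : Env) (t : List ℕ) : ℝ :=
  if trig lam γ N Z t then AA lam γ N Z t * pot lam γ N Z t else 0

/-- Reachability from `B` inside the finite set `S` along the random directed edges `E`. -/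
inductive Reach {ι R : Type} (B S : Finset ι) (E : ι → ι → R → Prop) (ω : ι → R) : ι → Prop
  | start {x : ι} : x ∈ B → Reach B S E ω x
  | step {x y : ι} : Reach B S E ω x → y ∈ S → E x y (ω x) → Reach B S E ω y

/-- The directed edges of the comparison process. -/
def edge (lam γ : ℝ) (N : ℕ) (Z : Env) (x y : List ℕ) (r : Rd) : Prop :=
  ¬ (tv lam γ N Z y <:+ x) ∧ ∃ j, j < cnt x r ∧ Hit Z N N x (r.2 j) (tv lam γ N Z y)

/-- The block of the root. -/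
noncomputable def blockRoot (lam γ : ℝ) (N : ℕ) (Z : Env) : Finset (List ℕ) :=
  (vert Z N).filter fun y => tv lam γ N Z y = []

/-- Iterates of the percolation recursion. -/
noncomputable def wn (ρ : ℝ) : ℕ → Env → ℝ
  | 0, _ => 1
  | n + 1, Z => ρ * (1 - ∏ i ∈ Finset.range (Z []), (1 - wn ρ n (sh i Z)))

/-- The quenched survival probability of percolation of parameter `ρ`. -/
noncomputable def ww (ρ : ℝ) (Z : Env) : ℝ := ⨅ n, wn ρ n Z

/-- The averaged quantity `(λ + Σ a) / (1 + γ Σ w)`. -/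
noncomputable def Wf {X : Type} (lam γ : ℝ) (a w : X → ℝ) (k : ℕ) (Y : ℕ → X) : ℝ :=
  (lam + ∑ i ∈ Finset.range k, a (Y i)) / (1 + γ * ∑ i ∈ Finset.range k, w (Y i))

/-- One step of the upper recursion. -/
noncomputable def na {X : Type} (lam γ : ℝ) (a w : X → ℝ) (k : ℕ) (Y : ℕ → X) : ℝ :=
  if lam + ∑ i ∈ Finset.range k, a (Y i) ≤ γ * (γ * ∑ i ∈ Finset.range k, w (Y i)) then 0
  else Wf lam γ a w k Y

/-- The upper recursion. -/
noncomputable def an (ρ lam γ : ℝ) : ℕ → Env → ℝ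
  | 0, _ => 0
  | n + 1, Z => na lam γ (an ρ lam γ n) (ww ρ) (Z []) (fun i => sh i Z)

/-- Negative moments of `1 + γ Σ w`. -/
noncomputable def mk {X : Type} [MeasurableSpace X] (μ : Measure X) (w : X → ℝ) (γ : ℝ)
    (P k : ℕ) : ℝ≥0∞ :=
  ∫⁻ Y, ENNReal.ofReal (((1 + γ * ∑ i ∈ Finset.range k, w (Y i))⁻¹) ^ P)
    ∂(Measure.infinitePi fun _ : ℕ => μ)

/-! ## Product measures -/

/-- First entry and the rest of an i.i.d. sequence. -/
def TaskSeq : Prop :=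
  ∀ (α : Type) [MeasurableSpace α] (μ : Measure α) [IsProbabilityMeasure μ],
    MeasurePreserving (fun u : ℕ → α => (u 0, fun k => u (k + 1)))
      (Measure.infinitePi fun _ : ℕ => μ) (μ.prod (Measure.infinitePi fun _ : ℕ => μ))

/-- Branching property. -/
def TaskTree : Prop :=
  ∀ (p : Measure ℕ) [IsProbabilityMeasure p],
    MeasurePreserving (fun Z : Env => (Z [], fun i : ℕ => sh i Z))
      (GW p) (p.prod (Measure.infinitePi fun _ : ℕ => GW p))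

/-- Expected sums over a Poisson number of particles. -/
def TaskCamp : Prop :=
  ∀ (lam : ℝ≥0) (F : (ℕ → ℝ) → ℝ≥0∞), Measurable F →
    ∫⁻ r, ∑ j ∈ Finset.range r.1, F (r.2 j) ∂(vertexLaw lam) =
      (lam : ℝ≥0∞) * ∫⁻ u, F u ∂(Measure.infinitePi fun _ : ℕ => unif)

/-- The law of one step. -/
def TaskStep : Prop :=
  ∀ (Z : Env) (F : List ℕ → ℝ≥0∞),
    (1 ≤ Z [] → ∫⁻ x, F (step Z [] x) ∂unif =
      (Z [] : ℝ≥0∞)⁻¹ * ∑ i ∈ Finset.range (Z []), F [i]) ∧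
    (∀ i v, ∫⁻ x, F (step Z (i :: v) x) ∂unif =
      ((Z (i :: v) : ℝ≥0∞) + 1)⁻¹ *
        (F v + ∑ j ∈ Finset.range (Z (i :: v)), F (j :: i :: v)))

/-! ## A single walk -/

/-- Expected score at most the potential (measurability of the score included). -/
def TaskWalk : Prop :=
  ∀ (Z : Env) (N : ℕ) (β U : List ℕ → ℝ≥0∞),
    (∀ x, x.length < N → (if x = [] then 1 else 0) +
      ∫⁻ s, (cross β x (step Z x s) +
        (if (step Z x s).length < N then U (step Z x s) else 0)) ∂unif ≤ U x) →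
    ∀ m x, x.length < N →
      ∫⁻ u, score Z N β m x u ∂(Measure.infinitePi fun _ : ℕ => unif) ≤ U x

/-- Measurability in the driving sequence. -/
def TaskMeas : Prop :=
  (∀ (Z : Env) (N m : ℕ) (x y : List ℕ), MeasurableSet {u | Hit Z N m x u y}) ∧
  (∀ (Z : Env) (N : ℕ) (β : List ℕ → ℝ≥0∞) (m : ℕ) (x : List ℕ),
    Measurable fun u => score Z N β m x u) ∧
  (∀ (Z : Env) (x y : List ℕ) (k : ℕ), MeasurableSet {u | walk Z x u k = y})

/-- Pathwise comparison of visits with the score. -/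
def TaskScore : Prop :=
  ∀ (Z : Env) (N : ℕ) (β : List ℕ → ℝ≥0∞) (S : Finset (List ℕ)) (m : ℕ) (x : List ℕ)
    (u : ℕ → ℝ), x.length < N →
    (if Hit Z N m x u [] then 1 else 0) +
      ∑ t ∈ S.filter (fun t => ¬ (t <:+ x)), (if Hit Z N m x u t then β t else 0)
      ≤ score Z N β (m + 1) x u

/-! ## The potential -/

/-- Elementary bounds for the recursion. -/
def TaskTA : Prop :=
  ∀ (lam γ : ℝ), 0 < lam → 0 < γ → γ ≤ 1 → ∀ (n : ℕ) (Z : Env),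
    0 ≤ (TA lam γ n Z).1 ∧ 0 ≤ (TA lam γ n Z).2 ∧ (TA lam γ n Z).2 ≤ 1

/-- The potential is superharmonic. -/
def TaskPot : Prop :=
  ∀ (lam γ : ℝ), 0 < lam → 0 < γ → γ ≤ 1 → ∀ (Z : Env) (N : ℕ), 0 < TH lam γ N Z [] →
    ∀ x : List ℕ, x.length < N → (if x = [] then 1 else 0) +
      ∫⁻ s, (cross (fun t => ENNReal.ofReal (bet lam γ N Z t)) x (step Z x s) +
        (if (step Z x s).length < N then ENNReal.ofReal (pot lam γ N Z (step Z x s)) else 0))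
        ∂unif ≤ ENNReal.ofReal (pot lam γ N Z x)

/-- Block sums: `λ` times the sum of the potential over the block of a trigger is at most the
weight of the trigger; likewise for the root. -/
def TaskBlk : Prop :=
  ∀ (lam γ : ℝ), 0 < lam → 0 < γ → γ ≤ 1 → ∀ (Z : Env) (N : ℕ), 0 < TH lam γ N Z [] →
    (∀ t, trig lam γ N Z t →
      ∑ y ∈ (vert Z N).filter (fun y => tv lam γ N Z y = t), lam * pot lam γ N Z y
        ≤ bet lam γ N Z t) ∧
    (∑ y ∈ (blockRoot lam γ N Z).filter (fun y => y ≠ []), lam * pot lam γ N Z y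
      ≤ (AA lam γ N Z [] - lam) * pot lam γ N Z [])

/-! ## Comparison -/

/-- The abstract chain bound. -/
def TaskChain : Prop :=
  ∀ (ι R : Type) [DecidableEq ι] [MeasurableSpace R] (ν : Measure R) [IsProbabilityMeasure ν]
    (B S : Finset ι), B ⊆ S → ∀ (E : ι → ι → R → Prop), (∀ x y, MeasurableSet {r | E x y r}) →
    ∀ (q : ι → R → ℝ≥0∞), (∀ x, Measurable (q x)) → ∀ (U : ι → ℝ≥0∞),
    (∀ x ∈ S, ∫⁻ r, q x r ∂ν + ∑ y ∈ S, ν {r | E x y r} * U y ≤ U x) →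
    ∫⁻ ω, ∑ z ∈ S, (if Reach B S E ω z then q z (ω z) else 0)
      ∂(Measure.infinitePi fun _ : ι => ν) ≤ ∑ x ∈ B, U x

/-- Every vertex activated in the cut process is reachable in the comparison process. -/
def TaskDom : Prop :=
  ∀ (lam γ : ℝ) (Z : Env) (N : ℕ) (ω : Conf) (y : List ℕ), 1 ≤ Z [] → 1 ≤ N →
    ActiveN Z N ω y →
    y ∈ vert Z N ∧ Reach (blockRoot lam γ N Z) (vert Z N) (edge lam γ N Z) ω y

/-- The quenched bound. -/
def TaskQuench : Prop :=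
  ∀ (lam : ℝ≥0) (γ : ℝ), 0 < lam → 0 < γ → γ ≤ 1 → ∀ (Z : Env) (N : ℕ), 1 ≤ N →
    0 < TH lam γ N Z [] →
    ∫⁻ ω, VN Z N ω ∂(FM lam) ≤
      ENNReal.ofReal ((Z [] : ℝ) / TH lam γ N Z [] * (1 + (AA lam γ N Z [] - lam)))

/-- From the cut processes to transience. -/
def TaskLim : Prop :=
  ∀ (lam : ℝ≥0) (Z : Env), 1 ≤ Z [] →
    (∃ C : ℝ≥0, ∃ᶠ N in atTop, ∫⁻ ω, VN Z N ω ∂(FM lam) ≤ C) → Transient Z lam

/-- Comparison of the recursion with the upper recursion. -/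
def TaskComp : Prop :=
  ∀ (lam γ : ℝ), 0 < lam → 0 < γ → γ < 1 → ∀ (n : ℕ) (Z : Env),
    (TA lam γ n Z).1 ≤ an ((1 - γ) / (1 + γ)) lam γ n Z ∧
    γ * ww ((1 - γ) / (1 + γ)) Z ≤ (TA lam γ n Z).2

/-! ## The percolation probability -/

/-- Basic properties. -/
def TaskW : Prop :=
  ∀ ρ : ℝ, 0 < ρ → ρ < 1 →
    (∀ n, Measurable (wn ρ n)) ∧ Measurable (ww ρ) ∧
    (∀ n Z, 0 ≤ wn ρ n Z ∧ wn ρ n Z ≤ 1 ∧ ww ρ Z ≤ wn ρ n Z ∧ wn ρ (n + 1) Z ≤ wn ρ n Z) ∧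
    (∀ Z, 0 ≤ ww ρ Z ∧ ww ρ Z ≤ 1) ∧
    (∀ Z, ww ρ Z = ρ * (1 - ∏ i ∈ Finset.range (Z []), (1 - ww ρ (sh i Z)))) ∧
    (∀ (lam γ : ℝ) (n : ℕ), Measurable (an ρ lam γ n))

/-- The percolation probability is not a.s. zero. -/
def TaskWpos : Prop :=
  ∀ (p : Measure ℕ) [IsProbabilityMeasure p] (ρ : ℝ), 0 < ρ → ρ < 1 →
    1 < ENNReal.ofReal ρ * ∫⁻ k, (k : ℝ≥0∞) ∂p →
    0 < ∫⁻ Z, ENNReal.ofReal (ww ρ Z) ∂(GW p)

/-- Generating function facts for a supercritical offspring law. -/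
def TaskGF : Prop :=
  ∀ (p : Measure ℕ) [IsProbabilityMeasure p], 1 < ∫⁻ k, (k : ℝ≥0∞) ∂p →
    ∀ z : ℝ≥0∞, z < 1 → ∑' k, p {k} * z ^ k = z →
      (∑' k, p {k} * ((k : ℝ≥0∞) * z ^ (k - 1)) < 1) ∧
      (∀ q : ℝ≥0∞, q ≤ z → ∑' k, p {k} * q ^ k = q → q = z)

/-- The zero set of the percolation probability. -/
def TaskZero : Prop :=
  ∀ (p : Measure ℕ) [IsProbabilityMeasure p] (ρ : ℝ), 0 < ρ → ρ < 1 →
    0 < ∫⁻ Z, ENNReal.ofReal (ww ρ Z) ∂(GW p) →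
    GW p {Z | ww ρ Z = 0} < 1 ∧
    ∑' k, p {k} * GW p {Z | ww ρ Z = 0} ^ k = GW p {Z | ww ρ Z = 0}

/-- The percolation probability is positive a.s. on infinite trees. -/
def TaskExt : Prop :=
  ∀ (p : Measure ℕ) [IsProbabilityMeasure p] (ρ : ℝ), 0 < ρ → ρ < 1 →
    1 < ENNReal.ofReal ρ * ∫⁻ k, (k : ℝ≥0∞) ∂p →
    MeasurableSet Survive ∧ ∀ᵐ Z ∂(GW p), Z ∈ Survive → 0 < ww ρ Z

/-! ## Moments -/

/-- Negative moments. -/
def TaskMk : Prop :=
  ∀ (X : Type) [MeasurableSpace X] (μ : Measure X) [IsProbabilityMeasure μ] (w : X → ℝ) (γ : ℝ),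
    Measurable w → (∀ x, 0 ≤ w x ∧ w x ≤ 1) → 0 < γ → 0 < ∫⁻ x, ENNReal.ofReal (w x) ∂μ →
    ∀ P : ℕ, ∃ C : ℝ, 0 < C ∧ ∀ k : ℕ, mk μ w γ P k ≤ ENNReal.ofReal (C / ((k : ℝ) + 1) ^ P)

/-- The contraction factor is below one for some even power. -/
def TaskKappa : Prop :=
  ∀ (X : Type) [MeasurableSpace X] (μ : Measure X) [IsProbabilityMeasure μ] (w : X → ℝ) (γ : ℝ),
    Measurable w → (∀ x, 0 ≤ w x ∧ w x ≤ 1) → 0 < γ → 0 < ∫⁻ x, ENNReal.ofReal (w x) ∂μ →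
    ∀ (p : Measure ℕ) [IsProbabilityMeasure p], 1 < ∫⁻ k, (k : ℝ≥0∞) ∂p →
    ∑' k, p {k} * μ {x | w x = 0} ^ k = μ {x | w x = 0} →
    ∃ r : ℕ, 1 ≤ r ∧ ∑' k, p {k} * ((k : ℝ≥0∞) * mk μ w γ (2 * r) (k - 1)) < 1

/-- Pointwise inequality for few children. -/
def TaskPtA : Prop :=
  ∀ (r k : ℕ), 1 ≤ r → ∀ δ : ℝ, 0 < δ → ∃ C : ℝ, 0 < C ∧
    ∀ (γ lam : ℝ) (a w : ℕ → ℝ), 0 < γ → 0 ≤ lam → (∀ i, 0 ≤ a i) → (∀ i, 0 ≤ w i) →
    ((lam + ∑ i ∈ Finset.range k, a i) / (1 + γ * ∑ i ∈ Finset.range k, w i)) ^ (2 * r) ≤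
      (1 + δ) * ∑ i ∈ Finset.range k, a i ^ (2 * r) *
        ((1 + γ * ∑ j ∈ (Finset.range k).erase i, w j)⁻¹) ^ (2 * r) +
      C * (lam ^ (2 * r) + ∑ i ∈ Finset.range k, ∑ j ∈ (Finset.range k).erase i,
        a i ^ r * a j ^ r)

/-- Pointwise inequality for many children. -/
def TaskPtB : Prop :=
  ∀ (P k : ℕ), 1 ≤ P → ∀ (γ lam : ℝ) (a w : ℕ → ℝ), 0 < γ → 0 ≤ lam → (∀ i, 0 ≤ a i) →
    (∀ i, 0 ≤ w i) →
    ((lam + ∑ i ∈ Finset.range k, a i) / (1 + γ * ∑ i ∈ Finset.range k, w i)) ^ P ≤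
      ((k : ℝ) + 1) ^ (P - 1) *
        (lam ^ P * ((1 + γ * ∑ j ∈ Finset.range k, w j)⁻¹) ^ P +
          ∑ i ∈ Finset.range k, a i ^ P *
            ((1 + γ * ∑ j ∈ (Finset.range k).erase i, w j)⁻¹) ^ P)

/-- Independence of the variable of one child and those of the others. -/
def TaskInd : Prop :=
  ∀ (X : Type) [MeasurableSpace X] (μ : Measure X) [IsProbabilityMeasure μ] (w a : X → ℝ)
    (γ : ℝ), Measurable w → Measurable a → (∀ x, 0 ≤ w x ∧ w x ≤ 1) → (∀ x, 0 ≤ a x) → 0 < γ →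
    (∀ (P k i : ℕ), i < k →
      ∫⁻ Y, ENNReal.ofReal (a (Y i) ^ P *
          ((1 + γ * ∑ j ∈ (Finset.range k).erase i, w (Y j))⁻¹) ^ P)
          ∂(Measure.infinitePi fun _ : ℕ => μ)
        = (∫⁻ x, ENNReal.ofReal (a x ^ P) ∂μ) * mk μ w γ P (k - 1)) ∧
    (∀ (r i j : ℕ), i ≠ j →
      ∫⁻ Y, ENNReal.ofReal (a (Y i) ^ r * a (Y j) ^ r) ∂(Measure.infinitePi fun _ : ℕ => μ)
        = (∫⁻ x, ENNReal.ofReal (a x ^ r) ∂μ) ^ 2) ∧
    (∀ k : ℕ, ∫⁻ Y, ENNReal.ofReal (if ∀ i < k, w (Y i) = 0 then ∑ i ∈ Finset.range k, a (Y i)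
          else 0) ∂(Measure.infinitePi fun _ : ℕ => μ)
        = (k : ℝ≥0∞) * μ {x | w x = 0} ^ (k - 1) *
          ∫⁻ x in {x | w x = 0}, ENNReal.ofReal (a x) ∂μ) ∧
    (∀ k : ℕ, (Measure.infinitePi fun _ : ℕ => μ) {Y | ∀ i < k, w (Y i) = 0}
        = μ {x | w x = 0} ^ k)

/-- The `2 r`-th moment of the averaged quantity. -/
def TaskMomP : Prop :=
  ∀ (X : Type) [MeasurableSpace X] (μ : Measure X) [IsProbabilityMeasure μ] (w : X → ℝ) (γ : ℝ),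
    Measurable w → (∀ x, 0 ≤ w x ∧ w x ≤ 1) → 0 < γ → 0 < ∫⁻ x, ENNReal.ofReal (w x) ∂μ →
    ∀ (p : Measure ℕ) [IsProbabilityMeasure p] (r : ℕ), 1 ≤ r →
    ∃ C' : ℝ≥0, ∀ (δ : ℝ≥0) (n0 : ℕ), 0 < δ → ∃ C : ℝ≥0, ∀ (a : X → ℝ) (lam : ℝ≥0),
      Measurable a → (∀ x, 0 ≤ a x) →
      ∫⁻ k, ∫⁻ Y, ENNReal.ofReal (Wf lam γ a w k Y ^ (2 * r))
          ∂(Measure.infinitePi fun _ : ℕ => μ) ∂p ≤
        ((1 + δ) * ∑' k, p {k} * ((k : ℝ≥0∞) * mk μ w γ (2 * r) (k - 1)) +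
            C' * p {k | n0 ≤ k}) * ∫⁻ x, ENNReal.ofReal (a x ^ (2 * r)) ∂μ +
          C * ((lam : ℝ≥0∞) ^ (2 * r) + (∫⁻ x, ENNReal.ofReal (a x ^ r) ∂μ) ^ 2)

/-- The first moment. -/
def TaskMomX : Prop :=
  ∀ (X : Type) [MeasurableSpace X] (μ : Measure X) [IsProbabilityMeasure μ] (w : X → ℝ) (γ : ℝ),
    Measurable w → (∀ x, 0 ≤ w x ∧ w x ≤ 1) → 0 < γ →
    ∀ (p : Measure ℕ) [IsProbabilityMeasure p] (r : ℕ), 1 ≤ r →
    ∃ B : ℝ≥0 → ℝ≥0, ∀ η : ℝ≥0, 0 < η → ∃ D : ℝ≥0, ∀ (a : X → ℝ) (lam K : ℝ≥0), 0 < K →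
      ∀ ε : ℝ≥0, 0 < ε → Measurable a → (∀ x, 0 ≤ a x) →
      ∫⁻ k, ∫⁻ Y, ENNReal.ofReal (na lam γ a w k Y)
          ∂(Measure.infinitePi fun _ : ℕ => μ) ∂p ≤
        (lam : ℝ≥0∞) + (∑' k, p {k} * ((k : ℝ≥0∞) * μ {x | w x = 0} ^ (k - 1))) *
            (∫⁻ x in {x | w x = 0}, ENNReal.ofReal (a x) ∂μ) +
          ((ε : ℝ≥0∞) * (K : ℝ≥0∞)⁻¹ ^ (2 * r - 1) + D) *
            (∫⁻ k, ∫⁻ Y, ENNReal.ofReal (Wf lam γ a w k Y ^ (2 * r))
              ∂(Measure.infinitePi fun _ : ℕ => μ) ∂p) + B ε * K * η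

/-- The final moment bound. -/
def TaskMoment : Prop :=
  ∀ (p : Measure ℕ) [IsProbabilityMeasure p] (γ : ℝ), 0 < γ → γ < 1 →
    1 < ENNReal.ofReal ((1 - γ) / (1 + γ)) * ∫⁻ k, (k : ℝ≥0∞) ∂p →
    ∃ lam : ℝ≥0, 0 < lam ∧ ∃ C : ℝ≥0, ∀ n,
      ∫⁻ Z, ENNReal.ofReal (an ((1 - γ) / (1 + γ)) lam γ n Z) ∂(GW p) ≤ C

end FrogGW
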