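import Pool.Agent.W852.FG.Final

/-!
# Survival has positive probability
-/

namespace FrogGW
open MeasureTheory ProbabilityTheory
open scoped ENNReal NNReal

theorem inTree_sh (Z : Env) (i : ℕ) (hi : i < Z []) :
    ∀ u : List ℕ, InTree (sh i Z) u → InTree Z (u ++ [i]) := by
  intro u
  induction u with
  | nil => intro _; exact ⟨trivial, hi⟩
  | cons j u ih => intro h; exact ⟨ih h.1, h.2⟩

theorem wn_zero (ρ : ℝ) : ∀ (n : ℕ) (Z : Env), (∀ u, InTree Z u → u.length < n) →
    wn ρ n Z = 0 := by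
  intro n
  induction n with
  | zero => intro Z h; exact absurd (h [] trivial) (by simp)
  | succ n ih =>
    intro Z h
    have h1 : ∏ i ∈ Finset.range (Z []), (1 - wn ρ n (sh i Z)) = 1 := by
      refine Finset.prod_eq_one fun i hi => ?_
      rw [ih (sh i Z) fun u hu => ?_]
      · simp
      · have := h _ (inTree_sh Z i (Finset.mem_range.1 hi) u hu)
        simp only [List.length_append, List.length_cons, List.length_nil] at this
        omega
    rw [wn, h1]; simp

theorem ww_zero (hW : TaskW) {ρ : ℝ} (h0 : 0 < ρ) (h1 : ρ < 1) {Z : Env} (hZ : Z ∉ Survive) :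
    ww ρ Z = 0 := by
  have hf : {u | InTree Z u}.Finite := by
    by_contra h; exact hZ h
  obtain ⟨n, hn⟩ := (hf.image List.length).bddAbove
  obtain ⟨_, _, hb, hc, _, _⟩ := hW ρ h0 h1
  have h2 := wn_zero ρ (n + 1) Z fun u hu => by
    have := hn ⟨u, hu, rfl⟩; omega
  have h3 := (hb (n + 1) Z).2.2.1
  rw [h2] at h3
  exact le_antisymm h3 (hc Z).1

theorem survive_pos (hW : TaskW) (hP : TaskWpos) (p : Measure ℕ) [IsProbabilityMeasure p]
    (hp : 1 < ∫⁻ k, (k : ℝ≥0∞) ∂p) : GW p Survive ≠ 0 := by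
  obtain ⟨γ, hg0, hg1, hγ⟩ := exists_gamma hp
  set ρ := (1 - γ) / (1 + γ) with hρ
  have hρ0 : 0 < ρ := div_pos (by linarith) (by linarith)
  have hρ1 : ρ < 1 := by rw [hρ, div_lt_one (by linarith)]; linarith
  intro h
  have h1 := hP p ρ hρ0 hρ1 hγ
  have h2 : ∀ᵐ Z ∂(GW p), ENNReal.ofReal (ww ρ Z) = 0 := by
    have h3 : ∀ᵐ Z ∂(GW p), Z ∉ Survive := by
      rw [ae_iff]; simpa using h
    filter_upwards [h3] with Z hZ
    rw [ww_zero hW hρ0 hρ1 hZ]; simp
  rw [lintegral_congr_ae h2] at h1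
  simp at h1

end FrogGW
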