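import Pool.Agent.W852.FG.Stms

/-!
# The quenched bound (assembly)
-/

namespace FrogGW

open MeasureTheory ProbabilityTheory Filter
open scoped ENNReal NNReal Classical

theorem tv_cases (lam γ : ℝ) (N : ℕ) (Z : Env) : ∀ y : List ℕ,
    tv lam γ N Z y = [] ∨ trig lam γ N Z (tv lam γ N Z y)
  | [] => Or.inl rfl
  | i :: u => by
    rw [tv]
    split_ifs with h
    · exact Or.inr h
    · exact tv_cases lam γ N Z u

theorem pot_nonneg (hTA : TaskTA) {lam γ : ℝ} (hl : 0 < lam) (hg : 0 < γ) (hg1 : γ ≤ 1)
    (Z : Env) (N : ℕ) : ∀ x : List ℕ, 0 ≤ pot lam γ N Z x := by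
  have hT : ∀ x, 0 ≤ TH lam γ N Z x := fun x =>
    Finset.sum_nonneg fun i _ => (hTA lam γ hl hg hg1 _ _).2.1
  intro x
  induction x with
  | nil => exact div_nonneg (Nat.cast_nonneg _) (hT _)
  | cons i u ih =>
    rw [pot]
    exact div_nonneg ih (by have := hT (i :: u); linarith)

/-- The factor of a vertex: one particle at the root, `lam` expected particles elsewhere. -/
noncomputable def cf (lam : ℝ≥0) (x : List ℕ) : ℝ≥0∞ := if x = [] then 1 else lam

theorem camp' (hC : TaskCamp) (lam : ℝ≥0) (x : List ℕ) (F : (ℕ → ℝ) → ℝ≥0∞)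
    (hF : Measurable F) :
    ∫⁻ r, ∑ j ∈ Finset.range (cnt x r), F (r.2 j) ∂(vertexLaw lam) =
      cf lam x * ∫⁻ u, F u ∂(Measure.infinitePi fun _ : ℕ => unif) := by
  cases x with
  | nil =>
    simp only [cnt, cf, Finset.sum_range_one, if_true, one_mul]
    have h1 : MeasurePreserving (fun r : Rd => r.2 0) (vertexLaw lam)
        (Measure.infinitePi fun _ : ℕ => unif) := by
      have h2 : MeasurePreserving (Prod.snd : Rd → (ℕ → ℕ → ℝ)) (vertexLaw lam)
          (Measure.infinitePi fun _ : ℕ => Measure.infinitePi fun _ : ℕ => unif) :=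
        measurePreserving_snd
      exact (measurePreserving_eval_infinitePi
        (fun _ : ℕ => Measure.infinitePi fun _ : ℕ => unif) 0).comp h2
    exact h1.lintegral_comp hF
  | cons i v =>
    simp only [cnt, cf]
    rw [hC lam F hF]
    simp

theorem quench (hC : TaskCamp) (hM : TaskMeas) (hW : TaskWalk) (hS : TaskScore) (hTA : TaskTA)
    (hP : TaskPot) (hB : TaskBlk) (hCh : TaskChain) (hD : TaskDom) : TaskQuench := by
  intro lam γ hl hg hg1 Z N hN hT
  have hl' : (0 : ℝ) < (lam : ℝ) := hl
  have hZ : 1 ≤ Z [] := by
    by_contra h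
    have h0 : Z [] = 0 := by omega
    rw [TH, h0] at hT
    simp at hT
  set S := vert Z N with hSdef
  set P := Measure.infinitePi fun _ : ℕ => unif with hPdef
  let h : List ℕ → List ℕ → ℝ≥0∞ := fun x t => ∫⁻ u, (if Hit Z N N x u t then 1 else 0) ∂P
  have hHm : ∀ x t, Measurable fun u => (if Hit Z N N x u t then (1 : ℝ≥0∞) else 0) :=
    fun x t => Measurable.ite (hM.1 Z N N x t) measurable_const measurable_const
  let q : List ℕ → Rd → ℝ≥0∞ := fun x r =>
    ∑ j ∈ Finset.range (cnt x r), (if Hit Z N N x (r.2 j) [] then 1 else 0)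
  let U : List ℕ → ℝ≥0∞ := fun x => cf lam x * ENNReal.ofReal (pot lam γ N Z x)
  have hcnt : ∀ x, Measurable (cnt x) := by
    intro x
    cases x with
    | nil => exact measurable_const
    | cons i v => exact measurable_fst
  have hEm : ∀ x y, MeasurableSet {r | edge lam γ N Z x y r} := by
    intro x y
    have : {r | edge lam γ N Z x y r} = {r : Rd | ¬ (tv lam γ N Z y <:+ x)} ∩
        ⋃ j : ℕ, ({r : Rd | j < cnt x r} ∩ {r : Rd | Hit Z N N x (r.2 j) (tv lam γ N Z y)}) := by
      ext r
      simp [edge]
    rw [this]
    refine (MeasurableSet.const _).inter (MeasurableSet.iUnion fun j => ?_)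
    refine MeasurableSet.inter ?_ ?_
    · exact (hcnt x) (measurableSet_Ioi (a := j))
    · have h1 : Measurable fun r : Rd => r.2 j := (measurable_pi_apply j).comp measurable_snd
      exact h1 (hM.1 Z N N x _)
  have hqm : ∀ x, Measurable (q x) := by
    intro x
    have h1 : ∀ r, q x r = ∑' j : ℕ, (if j < cnt x r then
        (if Hit Z N N x (r.2 j) [] then (1 : ℝ≥0∞) else 0) else 0) := by
      intro r
      rw [tsum_eq_sum (s := Finset.range (cnt x r))]
      · refine Finset.sum_congr rfl fun j hj => ?_
        rw [if_pos (Finset.mem_range.1 hj)]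
      · intro j hj
        rw [if_neg (by simpa using hj)]
    have h2 : q x = fun r => ∑' j : ℕ, (if j < cnt x r then
        (if Hit Z N N x (r.2 j) [] then (1 : ℝ≥0∞) else 0) else 0) := funext h1
    rw [h2]
    refine Measurable.tsum fun j => ?_
    refine Measurable.ite ((hcnt x) (measurableSet_Ioi (a := j))) ?_ measurable_const
    exact (hHm x []).comp ((measurable_pi_apply j).comp measurable_snd)
  -- integral of q
  have hq : ∀ x, ∫⁻ r, q x r ∂(vertexLaw lam) = cf lam x * h x [] := by
    intro x
    exact camp' hC lam x _ (hHm x [])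
  -- probability of an edge
  have hE : ∀ x y, vertexLaw lam {r | edge lam γ N Z x y r} ≤
      if tv lam γ N Z y <:+ x then 0 else cf lam x * h x (tv lam γ N Z y) := by
    intro x y
    split_ifs with hs
    · have : {r | edge lam γ N Z x y r} = ∅ := by
        ext r
        simp [edge, hs]
      rw [this]
      simp
    · rw [← camp' hC lam x _ (hHm x (tv lam γ N Z y)), ← lintegral_indicator_one (hEm x y)]
      refine lintegral_mono fun r => ?_
      by_cases hr : edge lam γ N Z x y r
      · rw [Set.indicator_of_mem (by exact hr)]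
        obtain ⟨j, hj, hj'⟩ := hr.2
        have := Finset.single_le_sum (f := fun j => if Hit Z N N x (r.2 j) (tv lam γ N Z y)
          then (1 : ℝ≥0∞) else 0) (s := Finset.range (cnt x r)) (fun _ _ => zero_le)
          (Finset.mem_range.2 hj)
        simp only [hj', if_true] at this
        exact this
      · rw [Set.indicator_of_notMem (by exact hr)]
        exact zero_le
  have hkey : ∀ x ∈ S, ∫⁻ r, q x r ∂(vertexLaw lam) +
      ∑ y ∈ S, vertexLaw lam {r | edge lam γ N Z x y r} * U y ≤ U x := by
    intro x hx
    have hxN : x.length < N := by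
      have := hD lam γ Z N
      -- direct: membership in `vert`
      rw [hSdef, vert, Finset.mem_biUnion] at hx
      obtain ⟨n, hn, hxn⟩ := hx
      have hlev : ∀ n, ∀ y ∈ lev Z n, y.length = n := by
        intro n
        induction n with
        | zero => intro y hy; simp [lev] at hy; simp [hy]
        | succ n ih =>
          intro y hy
          rw [lev, Finset.mem_biUnion] at hy
          obtain ⟨u, hu, hy⟩ := hy
          rw [Finset.mem_image] at hy
          obtain ⟨i, _, rfl⟩ := hy
          simp [ih u hu]
      rw [hlev n x hxn]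
      exact Finset.mem_range.1 hn
    set β : List ℕ → ℝ≥0∞ := fun t => ENNReal.ofReal (bet lam γ N Z t) with hβ
    -- the sum over edges
    have hsum : ∑ y ∈ S, vertexLaw lam {r | edge lam γ N Z x y r} * U y ≤
        cf lam x * ∑ t ∈ (S.image (tv lam γ N Z)).filter (fun t => ¬ (t <:+ x)), h x t * β t := by
      calc ∑ y ∈ S, vertexLaw lam {r | edge lam γ N Z x y r} * U y
          ≤ ∑ y ∈ S, (if tv lam γ N Z y <:+ x then 0 else
              cf lam x * h x (tv lam γ N Z y) * (lam * ENNReal.ofReal (pot lam γ N Z y))) := by
            refine Finset.sum_le_sum fun y _ => ?_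
            refine (mul_le_mul_left (hE x y) _).trans ?_
            split_ifs with hs
            · simp
            · have hy : y ≠ [] := by
                rintro rfl
                exact hs (by rw [tv]; exact List.nil_suffix)
              simp only [U, cf, if_neg hy]
              exact le_rfl
        _ = ∑ y ∈ S.filter (fun y => ¬ (tv lam γ N Z y <:+ x)),
              cf lam x * h x (tv lam γ N Z y) * (lam * ENNReal.ofReal (pot lam γ N Z y)) := by
            rw [Finset.sum_filter]
            refine Finset.sum_congr rfl fun y _ => ?_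
            split_ifs <;> first | rfl | contradiction
        _ = ∑ t ∈ (S.image (tv lam γ N Z)).filter (fun t => ¬ (t <:+ x)),
              ∑ y ∈ (S.filter (fun y => ¬ (tv lam γ N Z y <:+ x))).filter
                (fun y => tv lam γ N Z y = t),
              cf lam x * h x (tv lam γ N Z y) * (lam * ENNReal.ofReal (pot lam γ N Z y)) := by
            refine (Finset.sum_fiberwise_of_maps_to (fun y hy => ?_) _).symm
            rw [Finset.mem_filter] at hy ⊢
            exact ⟨Finset.mem_image_of_mem _ hy.1, hy.2⟩
        _ ≤ ∑ t ∈ (S.image (tv lam γ N Z)).filter (fun t => ¬ (t <:+ x)),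
              cf lam x * h x t * β t := by
            refine Finset.sum_le_sum fun t ht => ?_
            rw [Finset.mem_filter] at ht
            obtain ⟨ht1, ht2⟩ := ht
            have htr : trig lam γ N Z t := by
              rw [Finset.mem_image] at ht1
              obtain ⟨y, _, rfl⟩ := ht1
              rcases tv_cases lam γ N Z y with h0 | h0
              · exact absurd (by rw [h0]; exact List.nil_suffix) ht2
              · exact h0
            calc ∑ y ∈ (S.filter (fun y => ¬ (tv lam γ N Z y <:+ x))).filter
                  (fun y => tv lam γ N Z y = t),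
                  cf lam x * h x (tv lam γ N Z y) * (lam * ENNReal.ofReal (pot lam γ N Z y))
                = ∑ y ∈ (S.filter (fun y => ¬ (tv lam γ N Z y <:+ x))).filter
                  (fun y => tv lam γ N Z y = t),
                  cf lam x * h x t * (lam * ENNReal.ofReal (pot lam γ N Z y)) := by
                  refine Finset.sum_congr rfl fun y hy => ?_
                  rw [(Finset.mem_filter.1 hy).2]
              _ = cf lam x * h x t * ∑ y ∈ (S.filter
                  (fun y => ¬ (tv lam γ N Z y <:+ x))).filter (fun y => tv lam γ N Z y = t),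
                  (lam * ENNReal.ofReal (pot lam γ N Z y)) := by rw [Finset.mul_sum]
              _ ≤ cf lam x * h x t * ∑ y ∈ S.filter (fun y => tv lam γ N Z y = t),
                  (lam * ENNReal.ofReal (pot lam γ N Z y)) := by
                  refine mul_le_mul_right ?_ _
                  refine Finset.sum_le_sum_of_subset ?_
                  intro y hy
                  rw [Finset.mem_filter, Finset.mem_filter] at hy
                  exact Finset.mem_filter.2 ⟨hy.1.1, hy.2⟩
              _ ≤ cf lam x * h x t * β t := by
                  refine mul_le_mul_right ?_ _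
                  have h1 := (hB lam γ hl' hg hg1 Z N hT).1 t htr
                  have h2 : ∑ y ∈ S.filter (fun y => tv lam γ N Z y = t),
                      ((lam : ℝ≥0∞) * ENNReal.ofReal (pot lam γ N Z y)) =
                      ENNReal.ofReal (∑ y ∈ S.filter (fun y => tv lam γ N Z y = t),
                        (lam : ℝ) * pot lam γ N Z y) := by
                    rw [ENNReal.ofReal_sum_of_nonneg]
                    · refine Finset.sum_congr rfl fun y _ => ?_
                      rw [ENNReal.ofReal_mul (by positivity), ENNReal.ofReal_coe_nnreal]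
                    · intro y _
                      exact mul_nonneg hl'.le (pot_nonneg hTA hl' hg hg1 Z N y)
                  rw [h2]
                  exact ENNReal.ofReal_le_ofReal h1
        _ = cf lam x * ∑ t ∈ (S.image (tv lam γ N Z)).filter (fun t => ¬ (t <:+ x)),
              h x t * β t := by
            rw [Finset.mul_sum]
            exact Finset.sum_congr rfl fun t _ => by ring
    have hscore : h x [] + ∑ t ∈ (S.image (tv lam γ N Z)).filter (fun t => ¬ (t <:+ x)),
        h x t * β t ≤ ENNReal.ofReal (pot lam γ N Z x) := by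
      have h1 := hW Z N β (fun y => ENNReal.ofReal (pot lam γ N Z y))
        (hP lam γ hl' hg hg1 Z N hT) (N + 1) x hxN
      refine le_trans ?_ h1
      have h2 : h x [] + ∑ t ∈ (S.image (tv lam γ N Z)).filter (fun t => ¬ (t <:+ x)),
          h x t * β t = ∫⁻ u, ((if Hit Z N N x u [] then 1 else 0) +
            ∑ t ∈ (S.image (tv lam γ N Z)).filter (fun t => ¬ (t <:+ x)),
              (if Hit Z N N x u t then β t else 0)) ∂P := by
        rw [lintegral_add_left (hHm x [])]
        congr 1
        rw [lintegral_finsetSum']
        · refine Finset.sum_congr rfl fun t _ => ?_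
          have : ∀ u, (if Hit Z N N x u t then β t else 0) =
              (if Hit Z N N x u t then (1 : ℝ≥0∞) else 0) * β t := by
            intro u; split_ifs <;> simp
          simp_rw [this]
          rw [lintegral_mul_const _ (hHm x t)]
        · intro t _
          exact (Measurable.ite (hM.1 Z N N x t) measurable_const
            measurable_const).aemeasurable
      rw [h2]
      exact lintegral_mono fun u => hS Z N β _ N x u hxN
    rw [hq x]
    refine (add_le_add le_rfl hsum).trans ?_
    rw [← mul_add]
    exact mul_le_mul_right hscore _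
  -- chain bound
  have hBS : blockRoot lam γ N Z ⊆ S := Finset.filter_subset _ _
  have h1 := hCh (List ℕ) Rd (vertexLaw lam) (blockRoot lam γ N Z) S hBS (edge lam γ N Z) hEm q
    hqm U hkey
  have h2 : ∫⁻ ω, VN Z N ω ∂(FM lam) ≤ ∫⁻ ω, ∑ z ∈ S,
      (if Reach (blockRoot lam γ N Z) S (edge lam γ N Z) ω z then q z (ω z) else 0)
      ∂(Measure.infinitePi fun _ : List ℕ => vertexLaw lam) := by
    rw [FM]
    refine lintegral_mono fun ω => ?_
    rw [VN]
    refine Finset.sum_le_sum fun z _ => ?_
    by_cases hz : ActiveN Z N ω z
    · rw [if_pos hz, if_pos (hD lam γ Z N ω z hZ hN hz).2]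
    · rw [if_neg hz]
      exact zero_le
  refine h2.trans (h1.trans ?_)
  have hroot : ([] : List ℕ) ∈ blockRoot lam γ N Z := by
    rw [blockRoot, Finset.mem_filter]
    refine ⟨?_, rfl⟩
    rw [vert, Finset.mem_biUnion]
    exact ⟨0, Finset.mem_range.2 hN, by simp [lev]⟩
  have hsplit : ∑ x ∈ blockRoot lam γ N Z, U x = U [] +
      ∑ x ∈ (blockRoot lam γ N Z).filter (fun y => y ≠ []), U x := by
    rw [← Finset.sum_filter_add_sum_filter_not _ (fun y : List ℕ => y = [])]
    congr 1
    have : (blockRoot lam γ N Z).filter (fun y => y = []) = {[]} := by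
      ext y
      rw [Finset.mem_filter, Finset.mem_singleton]
      exact ⟨fun h => h.2, fun h => ⟨h ▸ hroot, h⟩⟩
    rw [this, Finset.sum_singleton]
  rw [hsplit]
  have h3 : ∑ x ∈ (blockRoot lam γ N Z).filter (fun y => y ≠ []), U x =
      ENNReal.ofReal (∑ y ∈ (blockRoot lam γ N Z).filter (fun y => y ≠ []),
        (lam : ℝ) * pot lam γ N Z y) := by
    rw [ENNReal.ofReal_sum_of_nonneg]
    · refine Finset.sum_congr rfl fun y hy => ?_
      simp only [U, cf]
      rw [if_neg (Finset.mem_filter.1 hy).2, ENNReal.ofReal_mul (by positivity),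
        ENNReal.ofReal_coe_nnreal]
    · intro y _
      exact mul_nonneg hl'.le (pot_nonneg hTA hl' hg hg1 Z N y)
  have h4 := (hB lam γ hl' hg hg1 Z N hT).2
  have hp0 := pot_nonneg hTA hl' hg hg1 Z N []
  rw [h3]
  calc U [] + ENNReal.ofReal (∑ y ∈ (blockRoot lam γ N Z).filter (fun y => y ≠ []),
        (lam : ℝ) * pot lam γ N Z y)
      ≤ ENNReal.ofReal (pot lam γ N Z []) +
        ENNReal.ofReal ((AA lam γ N Z [] - lam) * pot lam γ N Z []) := by
        refine add_le_add ?_ (ENNReal.ofReal_le_ofReal h4)
        simp [U, cf]
    _ = ENNReal.ofReal ((Z [] : ℝ) / TH lam γ N Z [] * (1 + (AA lam γ N Z [] - lam))) := by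
        rw [← ENNReal.ofReal_add hp0 (mul_nonneg ?_ hp0)]
        · congr 1
          rw [show pot lam γ N Z [] = (Z [] : ℝ) / TH lam γ N Z [] from rfl]
          ring
        · rw [AA, add_sub_cancel_left]
          exact Finset.sum_nonneg fun i _ => (hTA lam γ hl' hg hg1 _ _).1

end FrogGW
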