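import Pool.Agent.W852.FG.Final
import Pool.Agent.W852.FG.Quench
import Pool.Agent.W852.FG.Pos
import Pool.Agent.W852.FG.Main

/-!
# Finitely many visits to the root

In the transient regime the total number of visits of active particles to the root is finite.
-/

namespace FrogGW

open MeasureTheory ProbabilityTheory Filter
open scoped ENNReal NNReal Classical

theorem walk_succ' (Z : Env) (x : List ℕ) (u : ℕ → ℝ) (k : ℕ) :
    walk Z x u (k + 1) = walk Z (step Z x (u 0)) (fun i => u (i + 1)) k := by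
  induction k with
  | zero => rfl
  | succ k ih =>
    rw [walk, ih]; rfl

theorem step_len (Z : Env) (x : List ℕ) (s : ℝ) : (step Z x s).length ≤ x.length + 1 := by
  cases x with
  | nil => simp [step]
  | cons i v =>
    rw [step]; split_ifs
    · simp
    · simp; omega

theorem score_visits (Z : Env) (N : ℕ) (β : List ℕ → ℝ≥0∞) : ∀ (m : ℕ) (x : List ℕ)
    (u : ℕ → ℝ), x.length + m < N →
    ∑ k ∈ Finset.range m, (if walk Z x u k = [] then (1 : ℝ≥0∞) else 0) ≤ score Z N β m x u := by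
  intro m
  induction m with
  | zero => intro x u _; simp
  | succ m ih =>
    intro x u h
    have hl : (step Z x (u 0)).length + m < N := by
      have := step_len Z x (u 0); omega
    rw [Finset.sum_range_succ', score, if_pos (show (step Z x (u 0)).length < N by omega)]
    have h1 := ih (step Z x (u 0)) (fun k => u (k + 1)) hl
    have h2 : ∑ k ∈ Finset.range m, (if walk Z x u (k + 1) = [] then (1 : ℝ≥0∞) else 0) =
        ∑ k ∈ Finset.range m,
          (if walk Z (step Z x (u 0)) (fun k => u (k + 1)) k = [] then (1 : ℝ≥0∞) else 0) := by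
      refine Finset.sum_congr rfl fun k _ => ?_
      rw [walk_succ']
    rw [h2]
    show _ + (if x = [] then (1 : ℝ≥0∞) else 0) ≤ _
    calc _ ≤ score Z N β m (step Z x (u 0)) (fun k => u (k + 1)) +
          (if x = [] then (1 : ℝ≥0∞) else 0) := by gcongr
      _ ≤ _ := by
        rw [add_comm]
        gcongr
        exact le_self_add

theorem pot_le (hTA : TaskTA) {lam γ : ℝ} (hl : 0 < lam) (hg : 0 < γ) (hg1 : γ ≤ 1)
    (Z : Env) (N : ℕ) (hTH : 0 < TH lam γ N Z []) : ∀ x : List ℕ,
    0 ≤ pot lam γ N Z x ∧ pot lam γ N Z x ≤ (Z [] : ℝ) / TH lam γ N Z [] := by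
  intro x
  induction x with
  | nil => exact ⟨by rw [pot]; positivity, by rw [pot]⟩
  | cons i u ih =>
    have h1 : 0 ≤ TH lam γ N Z (i :: u) := by
      rw [TH]; exact Finset.sum_nonneg fun i _ => (hTA lam γ hl hg hg1 _ _).2.1
    rw [pot]
    refine ⟨div_nonneg ih.1 (by linarith), (div_le_self ih.1 (by linarith)).trans ih.2⟩

/-- On a tree with positive percolation probability the walk visits the root finitely often. -/
theorem walk_fin (hTA : TaskTA) (hMeas : TaskMeas) (hWalk : TaskWalk) (hPot : TaskPot)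
    (hC : TaskComp) {γ : ℝ} (hg0 : 0 < γ) (hg1 : γ < 1) (Z : Env)
    (hsum : 0 < ∑ i ∈ Finset.range (Z []), ww ((1 - γ) / (1 + γ)) (sh i Z)) (x : List ℕ) :
    ∀ᵐ u ∂(Measure.infinitePi fun _ : ℕ => unif), {k | walk Z x u k = []}.Finite := by
  set c0 := γ * ∑ i ∈ Finset.range (Z []), ww ((1 - γ) / (1 + γ)) (sh i Z) with hc0
  have hc0pos : 0 < c0 := mul_pos hg0 hsum
  have hTH : ∀ N, c0 ≤ TH 1 γ N Z [] := by
    intro N
    rw [hc0, TH, Finset.mul_sum]
    exact Finset.sum_le_sum fun i _ => (hC 1 γ one_pos hg0 hg1 _ _).2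
  set μ := Measure.infinitePi fun _ : ℕ => unif with hμ
  have hmeas : ∀ k, MeasurableSet {u : ℕ → ℝ | walk Z x u k = []} := fun k => hMeas.2.2 Z x [] k
  have hb : ∀ m, ∑ k ∈ Finset.range m, μ {u : ℕ → ℝ | walk Z x u k = []} ≤
      ENNReal.ofReal ((Z [] : ℝ) / c0) := by
    intro m
    set N := x.length + m + 1 with hN
    have hTHp : 0 < TH 1 γ N Z [] := hc0pos.trans_le (hTH N)
    have h1 := hWalk Z N (fun t => ENNReal.ofReal (bet 1 γ N Z t))
      (fun t => ENNReal.ofReal (pot 1 γ N Z t)) (fun y hy => hPot 1 γ one_pos hg0 hg1.le Z N hTHp y hy)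
      m x (by omega)
    calc ∑ k ∈ Finset.range m, μ {u : ℕ → ℝ | walk Z x u k = []}
        = ∫⁻ u, ∑ k ∈ Finset.range m, (if walk Z x u k = [] then (1 : ℝ≥0∞) else 0) ∂μ := by
          rw [lintegral_finsetSum]
          · refine Finset.sum_congr rfl fun k _ => ?_
            rw [← lintegral_indicator_one (hmeas k)]
            refine lintegral_congr fun u => ?_
            simp [Set.indicator]
          · intro k _
            exact Measurable.ite (hmeas k) measurable_const measurable_const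
      _ ≤ ∫⁻ u, score Z N (fun t => ENNReal.ofReal (bet 1 γ N Z t)) m x u ∂μ :=
          lintegral_mono fun u => score_visits Z N _ m x u (by omega)
      _ ≤ ENNReal.ofReal (pot 1 γ N Z x) := h1
      _ ≤ ENNReal.ofReal ((Z [] : ℝ) / c0) := by
          refine ENNReal.ofReal_le_ofReal ?_
          exact (pot_le hTA one_pos hg0 hg1.le Z N hTHp x).2.trans
            (div_le_div_of_nonneg_left (Nat.cast_nonneg _) hc0pos (hTH N))
  have hs : ∑' k, μ {u : ℕ → ℝ | walk Z x u k = []} ≠ ∞ := by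
    rw [ENNReal.tsum_eq_iSup_nat]
    exact ne_of_lt (lt_of_le_of_lt (iSup_le hb) ENNReal.ofReal_lt_top)
  have h2 := measure_setOfPred_frequently_eq_zero (p := fun k (u : ℕ → ℝ) => walk Z x u k = [])
    (μ := μ) hs
  rw [ae_iff]
  refine measure_mono_null ?_ h2
  intro u hu
  simp only [Set.mem_ofPred_eq] at hu ⊢
  rw [Nat.frequently_atTop_iff_infinite]
  exact hu

/-- For every offspring law of mean in `(1, ∞]` there is a positive density at which, on almost
every infinite tree, almost surely the root is visited finitely often. -/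
theorem transient_visits (p : Measure ℕ) [IsProbabilityMeasure p]
    (hp : 1 < ∫⁻ k, (k : ℝ≥0∞) ∂p) :
    MeasurableSet Survive ∧ GW p Survive ≠ 0 ∧
    ∃ lam : ℝ≥0, 0 < lam ∧ ∀ᵐ Z ∂(ProbabilityTheory.cond (GW p) Survive), ∀ᵐ ω ∂FM lam,
      {q : (List ℕ × ℕ) × ℕ | Active Z ω q.1.1 ∧ q.1.2 < cnt q.1.1 (ω q.1.1) ∧
        walk Z q.1.1 ((ω q.1.1).2 q.1.2) q.2 = []}.Finite := by
  have hTr : TaskTree := Pool.Agent.W782.FG.tree
  have hW : TaskW := FrogGW.W591.taskW
  have hWpos : TaskWpos := FrogGW.W591.taskWpos hTr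
  have hGF : TaskGF := Pool.Agent.W782.FG.gf
  have hZero : TaskZero := FrogGW.W591.taskZero hTr hW
  have hE : TaskExt := FrogGW.W591.taskExt hTr hW hWpos hGF hZero
  have hTA : TaskTA := Pool.Agent.W930.FG.taskTA
  have hMeas : TaskMeas := Pool.Agent.W45.FG.taskMeas
  have hWalk : TaskWalk := Pool.Agent.W45.FG.taskWalk Pool.Agent.W782.FG.seq hMeas
  have hPot : TaskPot := Pool.Agent.W930.FG.taskPot hTA Pool.Agent.W930.FG.taskStep
  have hC : TaskComp := FrogGW.W591.taskComp hTA hW
  obtain ⟨hm, hpos, lam, h0, h⟩ := FrogGW.regime p hp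
  refine ⟨hm, hpos, lam, h0, ?_⟩
  obtain ⟨γ, hg0, hg1, hγ⟩ := exists_gamma hp
  have hρ0 : 0 < (1 - γ) / (1 + γ) := div_pos (by linarith) (by linarith)
  have hρ1 : (1 - γ) / (1 + γ) < 1 := by rw [div_lt_one (by linarith)]; linarith
  obtain ⟨_, hSpos⟩ := hE p _ hρ0 hρ1 hγ
  obtain ⟨_, _, _, hw01, hwrec, _⟩ := hW _ hρ0 hρ1
  have hSpos' : ∀ᵐ Z ∂(ProbabilityTheory.cond (GW p) Survive),
      0 < ww ((1 - γ) / (1 + γ)) Z := by
    unfold ProbabilityTheory.cond
    exact Measure.ae_smul_measure ((ae_restrict_iff' hm).2 hSpos) _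
  filter_upwards [h, hSpos'] with Z hZT hZw
  have hsum : 0 < ∑ i ∈ Finset.range (Z []), ww ((1 - γ) / (1 + γ)) (sh i Z) := by
    by_contra h
    have h0 : ∑ i ∈ Finset.range (Z []), ww ((1 - γ) / (1 + γ)) (sh i Z) = 0 :=
      le_antisymm (not_lt.1 h) (Finset.sum_nonneg fun i _ => (hw01 _).1)
    rw [Finset.sum_eq_zero_iff_of_nonneg fun i _ => (hw01 _).1] at h0
    have : ∏ i ∈ Finset.range (Z []), (1 - ww ((1 - γ) / (1 + γ)) (sh i Z)) = 1 :=
      Finset.prod_eq_one fun i hi => by rw [h0 i hi]; ring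
    rw [hwrec Z, this] at hZw
    simp at hZw
  have hwf := walk_fin hTA hMeas hWalk hPot hC hg0 hg1 Z hsum
  have hall : ∀ᵐ ω ∂FM lam, ∀ x : List ℕ, ∀ j : ℕ, {k | walk Z x ((ω x).2 j) k = []}.Finite := by
    refine ae_all_iff.2 fun x => ae_all_iff.2 fun j => ?_
    have h1 : MeasurePreserving (fun ω : Conf => ω x) (FM lam) (vertexLaw lam) :=
      measurePreserving_eval_infinitePi (fun _ : List ℕ => vertexLaw lam) x
    have h2 : MeasurePreserving (fun r : Rd => r.2) (vertexLaw lam)
        (Measure.infinitePi fun _ : ℕ => Measure.infinitePi fun _ : ℕ => unif) :=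
      measurePreserving_snd
    have h3 : MeasurePreserving (fun s : ℕ → ℕ → ℝ => s j)
        (Measure.infinitePi fun _ : ℕ => Measure.infinitePi fun _ : ℕ => unif)
        (Measure.infinitePi fun _ : ℕ => unif) :=
      measurePreserving_eval_infinitePi
        (fun _ : ℕ => Measure.infinitePi fun _ : ℕ => unif) j
    exact ((h3.comp h2).comp h1).quasiMeasurePreserving.ae (hwf x)
  filter_upwards [hZT, hall] with ω hω hωf
  refine ((hω.biUnion fun q _ => (hωf q.1 q.2).image fun k => (q, k))).subset ?_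
  rintro ⟨q, k⟩ ⟨h1, h2, h3⟩
  simp only [Set.mem_iUnion]
  exact ⟨q, ⟨h1, h2, k, h3⟩, k, h3, rfl⟩

end FrogGW
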