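import Pool.Agent.W852.FG.Stms

/-!
# Final assembly
-/

namespace FrogGW

open MeasureTheory ProbabilityTheory Filter
open scoped ENNReal NNReal Classical

theorem exists_gamma {m : ℝ≥0∞} (hm : 1 < m) : ∃ γ : ℝ, 0 < γ ∧ γ < 1 ∧
    1 < ENNReal.ofReal ((1 - γ) / (1 + γ)) * m := by
  obtain ⟨c, hc1, hc2⟩ := ENNReal.lt_iff_exists_nnreal_btwn.1 hm
  have hc : (1 : ℝ) < c := by exact_mod_cast hc1
  refine ⟨(c - 1) / (4 * c), by apply div_pos <;> linarith, ?_, ?_⟩
  · rw [div_lt_one (by linarith)]; linarith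
  · set γ : ℝ := (c - 1) / (4 * c) with hγ
    have hγ0 : 0 < γ := by apply div_pos <;> linarith
    have h1 : 1 - 2 * γ ≤ (1 - γ) / (1 + γ) := by
      rw [le_div_iff₀ (by linarith)]; nlinarith
    have h2 : 1 < (1 - 2 * γ) * c := by
      have : γ * c = (c - 1) / 4 := by
        rw [hγ]; field_simp
      nlinarith
    have h3 : 1 < (1 - γ) / (1 + γ) * c := by
      refine h2.trans_le (mul_le_mul_of_nonneg_right h1 c.coe_nonneg)
    have h0 : 0 ≤ (1 - γ) / (1 + γ) := by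
      by_contra h
      push Not at h
      nlinarith
    calc (1 : ℝ≥0∞) = ENNReal.ofReal 1 := by simp
      _ < ENNReal.ofReal ((1 - γ) / (1 + γ) * c) :=
          (ENNReal.ofReal_lt_ofReal_iff (by linarith)).2 h3
      _ = ENNReal.ofReal ((1 - γ) / (1 + γ)) * c := by
          rw [ENNReal.ofReal_mul h0, ENNReal.ofReal_coe_nnreal]
      _ ≤ _ := mul_le_mul_right hc2.le _

theorem final (hTr : TaskTree) (hW : TaskW) (hE : TaskExt) (hMo : TaskMoment)
    (hQ : TaskQuench) (hC : TaskComp) (hL : TaskLim) (hTA : TaskTA)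
    (p : Measure ℕ) [IsProbabilityMeasure p] (hp : 1 < ∫⁻ k, (k : ℝ≥0∞) ∂p) :
    ∃ lam : ℝ≥0, 0 < lam ∧ MeasurableSet Survive ∧
      ∀ᵐ Z ∂(GW p), Z ∈ Survive → Transient Z lam := by
  obtain ⟨γ, hg0, hg1, hγ⟩ := exists_gamma hp
  obtain ⟨lam, hlam, C, hCb⟩ := hMo p γ hg0 hg1 hγ
  set ρ := (1 - γ) / (1 + γ) with hρ
  have hρ0 : 0 < ρ := div_pos (by linarith) (by linarith)
  have hρ1 : ρ < 1 := by rw [hρ, div_lt_one (by linarith)]; linarith
  obtain ⟨hSm, hSpos⟩ := hE p ρ hρ0 hρ1 hγ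
  obtain ⟨_, hwm, _, hw01, hwrec, hanm⟩ := hW ρ hρ0 hρ1
  have hl' : (0 : ℝ) < lam := hlam
  refine ⟨lam, hlam, hSm, ?_⟩
  set m := Measure.infinitePi fun _ : ℕ => GW p with hm
  -- Fatou
  have hfat : ∀ k : ℕ, ∀ᵐ Y ∂m,
      liminf (fun n => ∑ i ∈ Finset.range k, ENNReal.ofReal (an ρ lam γ n (Y i))) atTop < ⊤ := by
    intro k
    have hme : ∀ n, Measurable fun Y : ℕ → Env =>
        ∑ i ∈ Finset.range k, ENNReal.ofReal (an ρ lam γ n (Y i)) := by
      intro n
      exact Finset.measurable_sum _ fun i _ =>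
        ((hanm lam γ n).comp (measurable_pi_apply i)).ennreal_ofReal
    refine ae_lt_top (Measurable.liminf hme) ?_
    refine ne_of_lt (lt_of_le_of_lt (lintegral_liminf_le hme) ?_)
    have hb : ∀ n, ∫⁻ Y, ∑ i ∈ Finset.range k, ENNReal.ofReal (an ρ lam γ n (Y i)) ∂m ≤
        (k : ℝ≥0∞) * C := by
      intro n
      rw [lintegral_finsetSum]
      · calc ∑ i ∈ Finset.range k, ∫⁻ Y, ENNReal.ofReal (an ρ lam γ n (Y i)) ∂m
            ≤ ∑ _i ∈ Finset.range k, (C : ℝ≥0∞) := by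
              refine Finset.sum_le_sum fun i _ => ?_
              have := (measurePreserving_eval_infinitePi (fun _ : ℕ => GW p) i).lintegral_comp
                (f := fun Z => ENNReal.ofReal (an ρ lam γ n Z)) (hanm lam γ n).ennreal_ofReal
              simp only [Function.eval] at this
              rw [this]
              exact hCb n
          _ = (k : ℝ≥0∞) * C := by simp
      · intro i _
        exact ((hanm lam γ n).comp (measurable_pi_apply i)).ennreal_ofReal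
    exact lt_of_le_of_lt (liminf_le_of_frequently_le' (Frequently.of_forall hb))
      (ENNReal.mul_lt_top (ENNReal.natCast_lt_top k) ENNReal.coe_lt_top)
  have hfat' : ∀ᵐ Z ∂(GW p), ∀ k : ℕ,
      liminf (fun n => ∑ i ∈ Finset.range k, ENNReal.ofReal (an ρ lam γ n (sh i Z))) atTop
        < ⊤ := by
    have h1 : MeasurePreserving (fun Z : Env => fun i : ℕ => sh i Z) (GW p) m :=
      (measurePreserving_snd (μ := p) (ν := m)).comp (hTr p)
    exact h1.quasiMeasurePreserving.ae (ae_all_iff.2 hfat)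
  filter_upwards [hfat', hSpos] with Z hZ1 hZ2 hZS
  have hwpos := hZ2 hZS
  -- some child has positive w
  have hsum : 0 < ∑ i ∈ Finset.range (Z []), ww ρ (sh i Z) := by
    by_contra h
    have h0 : ∑ i ∈ Finset.range (Z []), ww ρ (sh i Z) = 0 :=
      le_antisymm (not_lt.1 h) (Finset.sum_nonneg fun i _ => (hw01 _).1)
    rw [Finset.sum_eq_zero_iff_of_nonneg fun i _ => (hw01 _).1] at h0
    have : ∏ i ∈ Finset.range (Z []), (1 - ww ρ (sh i Z)) = 1 :=
      Finset.prod_eq_one fun i hi => by rw [h0 i hi]; ring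
    rw [hwrec Z, this] at hwpos
    simp at hwpos
  have hZ0 : 1 ≤ Z [] := by
    by_contra h
    have : Z [] = 0 := by omega
    rw [this] at hsum
    simp at hsum
  set c0 := γ * ∑ i ∈ Finset.range (Z []), ww ρ (sh i Z) with hc0
  have hc0pos : 0 < c0 := mul_pos hg0 hsum
  have hTH : ∀ N, c0 ≤ TH lam γ N Z [] := by
    intro N
    rw [hc0, TH, Finset.mul_sum]
    exact Finset.sum_le_sum fun i _ => (hC lam γ hl' hg0 hg1 _ _).2
  have hAA : ∀ N, AA lam γ N Z [] - lam ≤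
      ∑ i ∈ Finset.range (Z []), an ρ lam γ (N - 1) (sh i Z) := by
    intro N
    rw [AA, add_sub_cancel_left]
    exact Finset.sum_le_sum fun i _ => (hC lam γ hl' hg0 hg1 _ _).1
  have hAA0 : ∀ N, 0 ≤ AA lam γ N Z [] - lam := by
    intro N
    rw [AA, add_sub_cancel_left]
    exact Finset.sum_nonneg fun i _ => (hTA lam γ hl' hg0 hg1.le _ _).1
  obtain ⟨L, hL1, hL2⟩ := ENNReal.lt_iff_exists_nnreal_btwn.1 (hZ1 (Z []))
  have hfr := frequently_lt_of_liminf_lt (by isBoundedDefault) hL1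
  apply hL lam Z hZ0
  refine ⟨Real.toNNReal ((Z [] : ℝ) / c0 * (1 + L)), ?_⟩
  have hfr' : ∃ᶠ N in atTop, 1 ≤ N ∧
      ∑ i ∈ Finset.range (Z []), ENNReal.ofReal (an ρ lam γ (N - 1) (sh i Z)) < L := by
    rw [frequently_atTop] at hfr ⊢
    intro n
    obtain ⟨b, hb, hb'⟩ := hfr n
    exact ⟨b + 1, by omega, by omega, by simpa using hb'⟩
  refine hfr'.mono fun N hN => ?_
  obtain ⟨hN1, hN2⟩ := hN
  have hTHp : 0 < TH lam γ N Z [] := hc0pos.trans_le (hTH N)
  refine (hQ lam γ hlam hg0 hg1.le Z N hN1 hTHp).trans ?_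
  rw [ENNReal.ofReal]
  refine ENNReal.coe_le_coe.2 (Real.toNNReal_le_toNNReal ?_)
  have hsumL : ∑ i ∈ Finset.range (Z []), an ρ lam γ (N - 1) (sh i Z) ≤ L := by
    rw [← ENNReal.ofReal_sum_of_nonneg, ← ENNReal.ofReal_coe_nnreal] at hN2
    · exact (ENNReal.ofReal_lt_ofReal_iff_of_nonneg (by
        refine Finset.sum_nonneg fun i _ => ?_
        exact (hTA lam γ hl' hg0 hg1.le _ _).1.trans (hC lam γ hl' hg0 hg1 _ _).1)).1 hN2 |>.le
    · intro i _
      exact (hTA lam γ hl' hg0 hg1.le _ _).1.trans (hC lam γ hl' hg0 hg1 _ _).1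
  have h1 : (Z [] : ℝ) / TH lam γ N Z [] ≤ (Z [] : ℝ) / c0 :=
    div_le_div_of_nonneg_left (Nat.cast_nonneg _) hc0pos (hTH N)
  have h2 : 1 + (AA lam γ N Z [] - lam) ≤ 1 + L := by
    have := hAA N
    linarith
  have h3 : 0 ≤ 1 + (AA lam γ N Z [] - lam) := by
    have := hAA0 N
    linarith
  exact mul_le_mul h1 h2 h3 (by positivity)

end FrogGW
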