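import Mathlib

/-!
# The frog model on Galton-Watson trees: definitions

Vertices are words of natural numbers.  The root is the empty word, the children of the word `u`
are the words `i :: u` with `i` smaller than the number of children of `u`.
-/

namespace FrogGW

open MeasureTheory ProbabilityTheory
open scoped ENNReal NNReal

/-- An environment: `Z u` is the number of children of the word `u`. -/
abbrev Env := List ℕ → ℕ

/-- The word `u` is a vertex of the tree given by `Z`. -/
def InTree (Z : Env) : List ℕ → Prop
  | [] => True
  | i :: u => InTree Z u ∧ i < Z u

/-- The set of environments whose tree is infinite (non-extinction). -/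
def Survive : Set Env := {Z | {u | InTree Z u}.Infinite}

/-- The law of an environment with independent numbers of children of law `p`
(unconditioned Galton-Watson law). -/
noncomputable def GW (p : Measure ℕ) : Measure Env := Measure.infinitePi fun _ : List ℕ => p

/-- One step of simple random walk on the tree of `Z`, driven by a number `x`; when `x` is
uniform on `[0, 1)` the new position is a uniformly chosen neighbour of the present one. -/
noncomputable def step (Z : Env) : List ℕ → ℝ → List ℕ
  | [], x => [min ⌊x * (Z [] : ℝ)⌋₊ (Z [] - 1)]
  | i :: v, x =>
    if ⌊x * ((Z (i :: v) : ℝ) + 1)⌋₊ < Z (i :: v)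
      then ⌊x * ((Z (i :: v) : ℝ) + 1)⌋₊ :: i :: v else v

/-- The position after `k` steps of the walk from `x` driven by the sequence `u`. -/
noncomputable def walk (Z : Env) (x : List ℕ) (u : ℕ → ℝ) : ℕ → List ℕ
  | 0 => x
  | k + 1 => step Z (walk Z x u k) (u k)

/-- The uniform law on `[0, 1)`. -/
noncomputable def unif : Measure ℝ := (volume : Measure ℝ).restrict (Set.Ico 0 1)

/-- The randomness attached to a vertex: the number of particles sleeping there and, for each
particle, the sequence that drives its walk. -/
abbrev Rd := ℕ × (ℕ → ℕ → ℝ)

/-- The law of the randomness at a vertex: a Poisson number of particles, independent walks. -/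
noncomputable def vertexLaw (lam : ℝ≥0) : Measure Rd :=
  (poissonMeasure lam).prod
    (Measure.infinitePi fun _ : ℕ => Measure.infinitePi fun _ : ℕ => unif)

/-- A configuration of the randomness. -/
abbrev Conf := List ℕ → Rd

/-- The law of the frog model: independent randomness at all vertices. -/
noncomputable def FM (lam : ℝ≥0) : Measure Conf :=
  Measure.infinitePi fun _ : List ℕ => vertexLaw lam

/-- The number of particles starting at a vertex: one particle at the root, the sleeping
particles elsewhere. -/
def cnt : List ℕ → Rd → ℕ
  | [], _ => 1
  | _ :: _, r => r.1

/-- The vertices that are visited by active particles: the root, and every vertex visited by the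
walk of a particle that starts from such a vertex. -/
inductive Active (Z : Env) (ω : Conf) : List ℕ → Prop
  | root : Active Z ω []
  | wake {x y : List ℕ} (j k : ℕ) : Active Z ω x → j < cnt x (ω x) →
      walk Z x ((ω x).2 j) k = y → Active Z ω y

/-- The frog model on the tree of `Z` is transient: almost surely only finitely many active
particles visit the root. -/
def Transient (Z : Env) (lam : ℝ≥0) : Prop :=
  ∀ᵐ ω ∂FM lam, {q : List ℕ × ℕ | Active Z ω q.1 ∧ q.2 < cnt q.1 (ω q.1) ∧
    ∃ k, walk Z q.1 ((ω q.1).2 q.2) k = []}.Finite

instance unif_prob : IsProbabilityMeasure unif := by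
  constructor
  simp [unif]

instance vertexLaw_prob (lam : ℝ≥0) : IsProbabilityMeasure (vertexLaw lam) := by
  unfold vertexLaw; infer_instance

instance FM_prob (lam : ℝ≥0) : IsProbabilityMeasure (FM lam) := by
  unfold FM; infer_instance

instance GW_prob (p : Measure ℕ) [IsProbabilityMeasure p] : IsProbabilityMeasure (GW p) := by
  unfold GW; infer_instance

end FrogGW
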